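import Mathlib
import Pool.Agent.Helper73.UVCDefs
import Pool.Agent.Helper73.UVCTheorem

namespace Pool.Agent.Helper73.Old.SubsetSumReduction

open Pool.Agent.Helper73.UVC

/-- Explicit reduction of SUBSET SUM to (the negation of) the property of MP_148663. -/
theorem result (n : ℕ) (w : Fin n → ℕ) (hw : ∀ j, 0 < w j) (t : ℕ) :
    (∀ i j, redA n i j = 0 ∨ redA n i j = 1) ∧ (∀ i, 0 < redb w t i) ∧
    SquareAtVertices (polyhedron (redA n) (redb w t)) ∧
    (UnimodularAtVertices (polyhedron (redA n) (redb w t)) ↔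
      ¬ ∃ J : Finset (Fin n), ∑ j ∈ J, w j = t) :=
  ⟨redA_zero_one n, redb_pos w hw t, square_at_vertices hw, unimodular_iff hw⟩

end Pool.Agent.Helper73.Old.SubsetSumReduction
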